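import Pool.Agent.T2H03.DS.Fin

set_option autoImplicit false

open MeasureTheory Pool.Agent.T2H03.DS

namespace Pool.Agent.Results.MP_147a43_pr.DoublePointCapacity

/-- Question 1. For every `d ≥ 1`, every `d`-dimensional Brownian sheet `B` and every compact `G ⊂ (0, ∞)³`, the
probability that `B (s, t₁) = B (s, t₂)` for some `(s, t₁, t₂) ∈ G` with `t₁ ≠ t₂` is positive if and only if the set of
the off-diagonal points of `G` has positive `d/2`-dimensional capacity. -/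
theorem result :
    ∀ d : ℕ, 1 ≤ d → ∀ (Ω : Type) [MeasurableSpace Ω] (P : Measure Ω) (B : ℝ × ℝ → Ω → (Fin d → ℝ)), Sheet d P B →
      ∀ G : Set (ℝ × ℝ × ℝ), IsCompact G → (∀ x ∈ G, 0 < x.1 ∧ 0 < x.2.1 ∧ 0 < x.2.2) →
        (0 < P {ω | ∃ x ∈ G, x.2.1 ≠ x.2.2 ∧ B (x.1, x.2.1) ω = B (x.1, x.2.2) ω} ↔
          0 < cap (fun x y => U ((d : ℝ) / 2) (e3 x y)) (G ∩ Off)) :=
  fun d hd Ω _ P B hB => (all_fin d hd Ω P B hB).1

end Pool.Agent.Results.MP_147a43_pr.DoublePointCapacity
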