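import Pool.Agent.T2H03.DS.Fin

set_option autoImplicit false

open MeasureTheory Pool.Agent.T2H03.DS

namespace Pool.Agent.Results.MP_147a43_pr.ProjectedDoublePoints

/-- Question 2. For every `d ≥ 1`, every `d`-dimensional Brownian sheet `B` and every compact `E ⊂ (0, ∞)²`, the
probability that for some `(s, t₁) ∈ E` there is a `t₂ > 0`, `t₂ ≠ t₁`, with `B (s, t₁) = B (s, t₂)` is positive if and
only if `E` has positive `(d - 2)/2`-dimensional capacity. -/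
theorem result :
    ∀ d : ℕ, 1 ≤ d → ∀ (Ω : Type) [MeasurableSpace Ω] (P : Measure Ω) (B : ℝ × ℝ → Ω → (Fin d → ℝ)), Sheet d P B →
      ∀ E : Set (ℝ × ℝ), IsCompact E → (∀ x ∈ E, 0 < x.1 ∧ 0 < x.2) →
        (0 < P {ω | ∃ x ∈ E, ∃ t : ℝ, 0 < t ∧ t ≠ x.2 ∧ B x ω = B (x.1, t) ω} ↔
          0 < cap (fun x y => U (((d : ℝ) - 2) / 2) (e2 x y)) E) :=
  fun d hd Ω _ P B hB => (all_fin d hd Ω P B hB).2

end Pool.Agent.Results.MP_147a43_pr.ProjectedDoublePoints
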